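import Mathlib
import Pool.Agent.Lib.MP_c95b3b_ag_R.Defs
import Pool.Agent.Lib.MP_c95b3b_ag_R.Span
import Pool.Agent.Lib.MP_c95b3b_ag_R.Lie
import Pool.Agent.Lib.MP_c95b3b_ag_R.Der
import Pool.Agent.Lib.MP_c95b3b_ag_R.Ax

set_option autoImplicit false
set_option linter.unusedSectionVars false

/-!
Linear Ax theorem for logarithmic forms: preparations.
-/

namespace Pool.Agent.LinAx

open Pool.Agent.CITR Module

section

variable {k K : Type} [Field k] [CharZero k] [Field K] [Algebra k K]

/-- The constants of a set of derivations. -/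
def cst (Δ : Set (Derivation k K K)) : IntermediateField k K where
  carrier := {z | ∀ δ ∈ Δ, δ z = 0}
  mul_mem' := by
    intro a b ha hb δ hδ
    rw [Derivation.leibniz, ha δ hδ, hb δ hδ, smul_zero, smul_zero, add_zero]
  add_mem' := by
    intro a b ha hb δ hδ
    rw [map_add, ha δ hδ, hb δ hδ, add_zero]
  algebraMap_mem' := by
    intro c δ _
    exact Derivation.map_algebraMap δ c
  inv_mem' := by
    intro a ha δ hδ
    rw [Derivation.leibniz_inv, ha δ hδ, smul_zero]

theorem mem_cst {Δ : Set (Derivation k K K)} {z : K} : z ∈ cst Δ ↔ ∀ δ ∈ Δ, δ z = 0 := Iff.rfl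

theorem cst_closed (Δ : Set (Derivation k K K)) (z : K) (hz : IsAlgebraic (cst Δ) z) :
    z ∈ cst Δ := by
  intro δ hδ
  exact ax_algebraic δ (cst Δ).toSubalgebra (fun y hy => hy δ hδ) z hz

/-- A set of pivots of a subspace of `K^p`. -/
theorem exists_pivot {F : Type} [Field F] {p : ℕ} (R : Submodule F (Fin p → F)) :
    ∃ I : Finset (Fin p), (∀ v : Fin p → F, ∃ g ∈ R, ∀ l ∈ I, g l = v l) ∧
      ∀ g ∈ R, (∀ l ∈ I, g l = 0) → g = 0 := by
  classical
  obtain ⟨I, hI, hmax⟩ := Finset.exists_max_image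
    ((Finset.univ : Finset (Finset (Fin p))).filter
      fun I => ∀ v : Fin p → F, ∃ g ∈ R, ∀ l ∈ I, g l = v l) Finset.card
    ⟨∅, by simpa using ⟨0, R.zero_mem⟩⟩
  rw [Finset.mem_filter] at hI
  refine ⟨I, hI.2, ?_⟩
  intro g hg hgI
  by_contra hg0
  obtain ⟨l₀, hl₀⟩ : ∃ l, g l ≠ 0 := by
    by_contra hcon
    push Not at hcon
    exact hg0 (funext hcon)
  have hl₀I : l₀ ∉ I := fun h => hl₀ (hgI l₀ h)
  have h1 : insert l₀ I ∈ ((Finset.univ : Finset (Finset (Fin p))).filter
      fun I => ∀ v : Fin p → F, ∃ g ∈ R, ∀ l ∈ I, g l = v l) := by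
    rw [Finset.mem_filter]
    refine ⟨Finset.mem_univ _, fun v => ?_⟩
    obtain ⟨r, hr, hrI⟩ := hI.2 v
    refine ⟨r + ((v l₀ - r l₀) / g l₀) • g, R.add_mem hr (R.smul_mem _ hg), ?_⟩
    intro l hl
    rw [Finset.mem_insert] at hl
    rcases hl with rfl | hl
    · rw [Pi.add_apply, Pi.smul_apply, smul_eq_mul, div_mul_cancel₀ _ hl₀]
      ring
    · rw [Pi.add_apply, Pi.smul_apply, smul_eq_mul, hgI l hl, mul_zero, add_zero, hrI l hl]
  have h2 := hmax _ h1
  rw [Finset.card_insert_of_notMem hl₀I] at h2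
  omega

/-- A subspace of `K^p` stable under the derivations is spanned by its constant vectors. -/
theorem span_const (Δ : Set (Derivation k K K)) {p : ℕ} (R : Submodule K (Fin p → K))
    (hR : ∀ δ ∈ Δ, ∀ g ∈ R, (fun l => δ (g l)) ∈ R) :
    R ≤ Submodule.span K {c | c ∈ R ∧ ∀ l, c l ∈ cst Δ} := by
  classical
  obtain ⟨I, hI1, hI2⟩ := exists_pivot R
  have h1 : ∀ i : Fin p, ∃ b ∈ R, ∀ l ∈ I, b l = (Pi.single i 1 : Fin p → K) l :=
    fun i => hI1 _
  choose b hb hbI using h1
  have hbc : ∀ i, ∀ l, b i l ∈ cst Δ := by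
    intro i l δ hδ
    have h2 := hI2 _ (hR δ hδ (b i) (hb i)) (by
      intro l hl
      show δ (b i l) = 0
      rw [hbI i l hl, Pi.single_apply]
      split_ifs
      · exact Derivation.map_one_eq_zero δ
      · exact map_zero δ)
    exact congrFun h2 l
  intro g hg
  have h3 : g = ∑ i ∈ I, g i • b i := by
    rw [← sub_eq_zero]
    refine hI2 _ (R.sub_mem hg (Submodule.sum_mem _ fun i _ => R.smul_mem _ (hb i))) ?_
    intro l hl
    rw [Pi.sub_apply, Finset.sum_apply, Finset.sum_eq_single l]
    · rw [Pi.smul_apply, smul_eq_mul, hbI l l hl, Pi.single_eq_same, mul_one, sub_self]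
    · intro i _ hil
      rw [Pi.smul_apply, smul_eq_mul, hbI i l hl, Pi.single_eq_of_ne (Ne.symm hil), mul_zero]
    · intro h
      exact absurd hl h
  rw [h3]
  exact Submodule.sum_mem _ fun i _ => Submodule.smul_mem _ _
    (Submodule.subset_span ⟨hb i, hbc i⟩)

/-- The solutions in `F` of the linear equations with coefficients in `k`. -/
def Ker (F : Type) [Field F] [Algebra k F] {q n : ℕ} (Φ : Fin q → Fin n → k) :
    Submodule F (Fin n → F) where
  carrier := {v | ∀ l, ∑ j, algebraMap k F (Φ l j) * v j = 0}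
  add_mem' := by
    intro v w hv hw l
    simp only [Pi.add_apply, mul_add, Finset.sum_add_distrib]
    rw [hv l, hw l, add_zero]
  zero_mem' := by
    intro l
    simp
  smul_mem' := by
    intro c v hv l
    have h1 : ∑ j, algebraMap k F (Φ l j) * (c • v) j = c * ∑ j, algebraMap k F (Φ l j) * v j := by
      rw [Finset.mul_sum]
      refine Finset.sum_congr rfl fun j _ => ?_
      rw [Pi.smul_apply, smul_eq_mul]
      ring
    rw [h1, hv l, mul_zero]

theorem mem_Ker {F : Type} [Field F] [Algebra k F] {q n : ℕ} {Φ : Fin q → Fin n → k}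
    {v : Fin n → F} : v ∈ Ker F Φ ↔ ∀ l, ∑ j, algebraMap k F (Φ l j) * v j = 0 := Iff.rfl

/-- The dimension of the space of solutions does not grow in an extension. -/
theorem finrank_Ker_le {q n : ℕ} (Φ : Fin q → Fin n → k) :
    finrank K (Ker K Φ) ≤ finrank k (Ker k Φ) := by
  classical
  obtain ⟨I, hI1, hI2⟩ := exists_pivot (Ker k Φ)
  have h1 : ∀ g ∈ Ker K Φ, (∀ l ∈ I, g l = 0) → g = 0 := by
    intro g hg hgI
    funext j
    have h2 : ∀ f : Module.Dual k K, f (g j) = 0 := by
      intro f
      have h3 := hI2 (fun j => f (g j)) (by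
        intro l
        have h4 := congrArg f (hg l)
        rw [map_sum, map_zero] at h4
        rw [← h4]
        refine Finset.sum_congr rfl fun j _ => ?_
        rw [Algebra.algebraMap_self, RingHom.id_apply, ← Algebra.smul_def, map_smul, smul_eq_mul])
        (fun l hl => by rw [hgI l hl, map_zero])
      exact congrFun h3 j
    exact (Module.forall_dual_apply_eq_zero_iff k (g j)).mp h2
  have h5 : finrank K (Ker K Φ) ≤ I.card := by
    let π : Ker K Φ →ₗ[K] (I → K) :=
      (LinearMap.funLeft K K (fun j : I => (j : Fin n))).comp (Ker K Φ).subtype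
    have hinj : Function.Injective π := by
      rw [← LinearMap.ker_eq_bot, LinearMap.ker_eq_bot']
      intro w hw
      refine Subtype.ext (h1 w w.2 fun l hl => ?_)
      exact congrFun hw ⟨l, hl⟩
    have h6 := LinearMap.finrank_le_finrank_of_injective hinj
    rwa [Module.finrank_fintype_fun_eq_card, Fintype.card_coe] at h6
  refine h5.trans ?_
  let π : Ker k Φ →ₗ[k] (I → k) :=
    (LinearMap.funLeft k k (fun j : I => (j : Fin n))).comp (Ker k Φ).subtype
  have hsurj : Function.Surjective π := by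
    intro v
    obtain ⟨g, hg, hgI⟩ := hI1 (fun j => if h : j ∈ I then v ⟨j, h⟩ else 0)
    refine ⟨⟨g, hg⟩, ?_⟩
    funext j
    have h7 := hgI j j.2
    rw [dif_pos j.2] at h7
    exact h7
  have h8 := LinearMap.finrank_le_finrank_of_surjective hsurj
  rwa [Module.finrank_fintype_fun_eq_card, Fintype.card_coe] at h8

/-- Derivations dual to a finite algebraically independent family. -/
theorem exists_der' {κ : Type} [Finite κ] [DecidableEq κ] (x : κ → K)
    (hx : AlgebraicIndependent k x) :
    ∃ δ : κ → Derivation k K K, ∀ i j, δ i (x j) = if i = j then 1 else 0 := by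
  classical
  have hr : AlgebraicIndepOn k id (Set.range x) :=
    (algebraicIndependent_subtype_range hx.injective).mpr hx
  obtain ⟨T, hT, hb⟩ := exists_isTranscendenceBasis_superset hr
  have halg := hb.isAlgebraic
  have h1 := der_linearIndependent_D (k := k) (L := K) (ι := T) (fun t : T => (t : K)) hb.1
    (fun y => halg.isAlgebraic y)
  let v : κ → Ω[K⁄k] := fun j => KaehlerDifferential.D k K (x j)
  have h2 : LinearIndependent K v := by
    have h3 := h1.comp (fun j : κ => (⟨x j, hT ⟨j, rfl⟩⟩ : T)) (fun a b hab => by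
      exact hx.injective (congrArg Subtype.val hab))
    exact h3
  let b : Basis κ K (Submodule.span K (Set.range v)) := Basis.span h2
  have h3 : ∀ i, ∃ g : Ω[K⁄k] →ₗ[K] K, ∀ j, g (v j) = if i = j then 1 else 0 := by
    intro i
    obtain ⟨g, hg⟩ := LinearMap.exists_extend (b.coord i)
    refine ⟨g, fun j => ?_⟩
    have h4 : g (v j) = b.coord i (b j) := by
      rw [← hg]
      show g (v j) = g ((b j : Submodule.span K (Set.range v)) : Ω[K⁄k])
      rw [Basis.span_apply]
    rw [h4, Basis.coord_apply, Basis.repr_self, Finsupp.single_apply]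
    simp only [eq_comm]
  choose g hg using h3
  exact ⟨fun i => (g i).compDer (KaehlerDifferential.D k K), fun i j => hg i j⟩

end

end Pool.Agent.LinAx
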