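import Mathlib
import Pool.Agent.Lib.MP_c95b3b_ag_AX.Basic

set_option autoImplicit false
set_option linter.unusedSectionVars false

/-!
Linear Ax theorem for logarithmic forms.
-/

namespace Pool.Agent.LinAx

open Pool.Agent.CITR Module

section

variable {k K : Type} [Field k] [CharZero k] [Field K] [Algebra k K]

/-- The relations with coefficients in `K` between the logarithmic forms of the solutions of the
linear equations `Φ`. -/
def Rel {q n : ℕ} (x : Fin n → K) (Φ : Fin q → Fin n → k) : Submodule K (Fin n → K) where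
  carrier := {g | g ∈ Ker K Φ ∧ ∀ D : Derivation k K K, ∑ j, g j * (D (x j) / x j) = 0}
  add_mem' := by
    rintro v w ⟨hv, hv'⟩ ⟨hw, hw'⟩
    refine ⟨Submodule.add_mem _ hv hw, fun D => ?_⟩
    simp only [Pi.add_apply, add_mul, Finset.sum_add_distrib]
    rw [hv' D, hw' D, add_zero]
  zero_mem' := ⟨Submodule.zero_mem _, fun D => by simp⟩
  smul_mem' := by
    rintro c v ⟨hv, hv'⟩
    refine ⟨Submodule.smul_mem _ c hv, fun D => ?_⟩
    have h1 : ∑ j, (c • v) j * (D (x j) / x j) = c * ∑ j, v j * (D (x j) / x j) := by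
      rw [Finset.mul_sum]
      refine Finset.sum_congr rfl fun j _ => ?_
      rw [Pi.smul_apply, smul_eq_mul]
      ring
    rw [h1, hv' D, mul_zero]

theorem mem_Rel {q n : ℕ} {x : Fin n → K} {Φ : Fin q → Fin n → k} {g : Fin n → K} :
    g ∈ Rel x Φ ↔ g ∈ Ker K Φ ∧ ∀ D : Derivation k K K, ∑ j, g j * (D (x j) / x j) = 0 := Iff.rfl

/-- The derivations which kill the forms. -/
def Del {q n : ℕ} (x : Fin n → K) (Φ : Fin q → Fin n → k) : Set (Derivation k K K) :=
  {δ | ∀ g ∈ Ker K Φ, ∑ j, g j * (δ (x j) / x j) = 0}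

theorem der_Ker {q n : ℕ} (Φ : Fin q → Fin n → k) (D : Derivation k K K) {g : Fin n → K}
    (hg : g ∈ Ker K Φ) : (fun j => D (g j)) ∈ Ker K Φ := by
  intro l
  have h1 := congrArg D (hg l)
  rw [map_sum, map_zero] at h1
  rw [← h1]
  refine Finset.sum_congr rfl fun j _ => ?_
  rw [Derivation.leibniz, Derivation.map_algebraMap, smul_zero, add_zero, smul_eq_mul]

theorem Rel_stable {q n : ℕ} (x : Fin n → K) (hx : ∀ j, x j ≠ 0) (Φ : Fin q → Fin n → k)
    (δ : Derivation k K K) (hδ : δ ∈ Del x Φ) (g : Fin n → K) (hg : g ∈ Rel x Φ) :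
    (fun j => δ (g j)) ∈ Rel x Φ := by
  refine ⟨der_Ker Φ δ hg.1, fun D => ?_⟩
  have h1 := congrArg δ (hg.2 D)
  rw [map_sum, map_zero] at h1
  have h2 := congrArg D (hδ g hg.1)
  rw [map_sum, map_zero] at h2
  have h3 := hδ _ (der_Ker Φ D hg.1)
  have h4 := hg.2 ⁅δ, D⁆
  have h5 : ∀ j, δ (g j * (D (x j) / x j)) = δ (g j) * (D (x j) / x j) +
      (g j * (⁅δ, D⁆ (x j) / x j) + g j * D (δ (x j) / x j)) := by
    intro j
    rw [Derivation.leibniz, smul_eq_mul, smul_eq_mul, lie_dlog δ D (x j) (hx j)]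
    ring
  have h6 : ∀ j, D (g j * (δ (x j) / x j)) = D (g j) * (δ (x j) / x j) +
      g j * D (δ (x j) / x j) := by
    intro j
    rw [Derivation.leibniz, smul_eq_mul, smul_eq_mul]
    ring
  simp only [h5, Finset.sum_add_distrib] at h1
  simp only [h6, Finset.sum_add_distrib] at h2
  rw [h3, zero_add] at h2
  rw [h4, h2, add_zero, add_zero] at h1
  exact h1

/-- The exponents of the monomials which are constant. -/
def CL (Δ : Set (Derivation k K K)) {n : ℕ} (x : Fin n → K) (hx : ∀ j, x j ≠ 0) :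
    Submodule ℤ (Fin n → ℤ) :=
  AddSubgroup.toIntSubmodule {
    carrier := {a | ∏ j, x j ^ a j ∈ cst Δ}
    zero_mem' := by
      show ∏ j, x j ^ (0 : Fin n → ℤ) j ∈ cst Δ
      simp only [Pi.zero_apply, zpow_zero, Finset.prod_const_one]
      exact (cst Δ).one_mem
    add_mem' := by
      intro a b ha hb
      show ∏ j, x j ^ (a + b) j ∈ cst Δ
      have h4 : ∏ j, x j ^ (a + b) j = (∏ j, x j ^ a j) * ∏ j, x j ^ b j := by
        rw [← Finset.prod_mul_distrib]
        exact Finset.prod_congr rfl fun j _ => by rw [Pi.add_apply, zpow_add₀ (hx j)]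
      rw [h4]
      exact (cst Δ).mul_mem ha hb
    neg_mem' := by
      intro a ha
      show ∏ j, x j ^ (-a) j ∈ cst Δ
      have h4 : ∏ j, x j ^ (-a) j = (∏ j, x j ^ a j)⁻¹ := by
        rw [← Finset.prod_inv_distrib]
        exact Finset.prod_congr rfl fun j _ => by rw [Pi.neg_apply, zpow_neg]
      rw [h4]
      exact (cst Δ).inv_mem ha }

theorem mem_CL {Δ : Set (Derivation k K K)} {n : ℕ} {x : Fin n → K} {hx : ∀ j, x j ≠ 0}
    {a : Fin n → ℤ} : a ∈ CL Δ x hx ↔ ∏ j, x j ^ a j ∈ cst Δ := Iff.rfl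

theorem prod_zpow_sum {n m : ℕ} (x : Fin n → K) (hx : ∀ j, x j ≠ 0) (e : Fin m → Fin n → ℤ)
    (b : Fin m → ℤ) :
    ∏ j, x j ^ (∑ i, b i * e i j) = ∏ i, (∏ j, x j ^ e i j) ^ b i := by
  have h1 : ∀ j, x j ^ (∑ i, b i * e i j) = ∏ i, x j ^ (b i * e i j) := by
    intro j
    classical
    induction (Finset.univ : Finset (Fin m)) using Finset.induction_on with
    | empty => simp
    | insert a s ha ih => rw [Finset.sum_insert ha, Finset.prod_insert ha, zpow_add₀ (hx j), ih]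
  rw [Finset.prod_congr rfl fun j _ => h1 j, Finset.prod_comm]
  refine Finset.prod_congr rfl fun i _ => ?_
  rw [← Finset.prod_zpow]
  refine Finset.prod_congr rfl fun j _ => ?_
  rw [← zpow_mul, mul_comm]

/-- The group of the constant monomials is saturated. -/
theorem CL_sat (Δ : Set (Derivation k K K)) {n : ℕ} (x : Fin n → K) (hx : ∀ j, x j ≠ 0)
    (a : Fin n → ℤ) (N : ℤ) (hN : N ≠ 0) (ha : N • a ∈ CL Δ x hx) : a ∈ CL Δ x hx := by
  rw [mem_CL] at ha ⊢
  have h1 : ∏ j, x j ^ (N • a) j = (∏ j, x j ^ a j) ^ N := by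
    rw [← Finset.prod_zpow]
    refine Finset.prod_congr rfl fun j _ => ?_
    rw [Pi.smul_apply, smul_eq_mul, mul_comm, zpow_mul]
  rw [h1] at ha
  refine cst_closed Δ _ ?_
  set z := ∏ j, x j ^ a j with hz
  have hz0 : z ≠ 0 := Finset.prod_ne_zero_iff.mpr fun j _ => zpow_ne_zero _ (hx j)
  obtain ⟨M, hM⟩ : ∃ M : ℕ, M ≠ 0 ∧ z ^ M ∈ cst Δ := by
    refine ⟨N.natAbs, by omega, ?_⟩
    rcases Int.natAbs_eq N with h2 | h2
    · rw [h2, zpow_natCast] at ha
      exact ha
    · rw [h2, zpow_neg, zpow_natCast] at ha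
      have := (cst Δ).inv_mem ha
      rwa [inv_inv] at this
  refine ⟨Polynomial.X ^ M - Polynomial.C (⟨z ^ M, hM.2⟩ : cst Δ), ?_, ?_⟩
  · intro h
    have h3 := congrArg (fun P => Polynomial.coeff P M) h
    simp only [Polynomial.coeff_sub, Polynomial.coeff_X_pow, Polynomial.coeff_C,
      Polynomial.coeff_zero, if_true, if_neg hM.1, sub_zero] at h3
    exact one_ne_zero h3
  · rw [map_sub, map_pow, Polynomial.aeval_X, Polynomial.aeval_C]
    show z ^ M - ((⟨z ^ M, hM.2⟩ : cst Δ) : K) = 0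
    exact sub_self _

/-- If a derivation which kills the forms moves some coordinate, the group of the constant
monomials has smaller rank. -/
theorem CL_rank_lt (Δ : Set (Derivation k K K)) {n : ℕ} (x : Fin n → K) (hx : ∀ j, x j ≠ 0)
    (j₀ : Fin n) (hj₀ : x j₀ ∉ cst Δ) {m : ℕ} (b : Basis (Fin m) ℤ (CL Δ x hx)) : m < n := by
  classical
  have h1 : finrank ℤ (CL Δ x hx) = m := by
    rw [finrank_eq_card_basis b, Fintype.card_fin]
  have h2 : finrank ℤ ((Fin n → ℤ) ⧸ CL Δ x hx) + finrank ℤ (CL Δ x hx) = n := by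
    rw [Submodule.finrank_quotient_add_finrank, Module.finrank_fintype_fun_eq_card,
      Fintype.card_fin]
  by_contra hcon
  have h3 : finrank ℤ ((Fin n → ℤ) ⧸ CL Δ x hx) = 0 := by omega
  have h4 := Module.finrank_eq_zero_iff_isTorsion.mp h3
  obtain ⟨N, hN⟩ := @h4 (Submodule.Quotient.mk (Pi.single j₀ 1))
  have hN0 : (N : ℤ) ≠ 0 := nonZeroDivisors.coe_ne_zero N
  have h5 : (N : ℤ) • (Pi.single j₀ 1 : Fin n → ℤ) ∈ CL Δ x hx := by
    rw [← Submodule.Quotient.mk_eq_zero, Submodule.Quotient.mk_smul]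
    exact hN
  have h6 := CL_sat Δ x hx _ _ hN0 h5
  rw [mem_CL] at h6
  apply hj₀
  have h7 : ∏ j, x j ^ (Pi.single j₀ 1 : Fin n → ℤ) j = x j₀ := by
    rw [Finset.prod_eq_single j₀]
    · rw [Pi.single_eq_same, zpow_one]
    · intro j _ hj
      rw [Pi.single_eq_of_ne hj, zpow_zero]
    · intro h
      exact absurd (Finset.mem_univ _) h
  rwa [h7] at h6

end

end Pool.Agent.LinAx
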