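import Mathlib
import Pool.Agent.Lib.MP_c95b3b_ag_AX.LinAx

set_option autoImplicit false
set_option linter.unusedSectionVars false

/-!
Linear Ax theorem for logarithmic forms: the main statement.
-/

namespace Pool.Agent.LinAx

open Pool.Agent.CITR Module

section

variable {k K : Type} [Field k] [CharZero k] [Field K] [Algebra k K]

/-- The vectors of exponents form a free system, which is full. -/
def Full {n m : ℕ} (k : Type) {K : Type} [Field k] [Field K] [Algebra k K] (x : Fin n → K)
    (e : Fin m → Fin n → ℤ) : Prop :=
  ∀ a : Fin n → ℤ,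
    IsAlgebraic (IntermediateField.adjoin k (Set.range fun i => ∏ j, x j ^ e i j))
      (∏ j, x j ^ a j) → a ∈ Submodule.span ℤ (Set.range e)

/-- The forms `Φ` on the torus with the characters `e`. -/
def pull {q n m : ℕ} (Φ : Fin q → Fin n → k) (e : Fin m → Fin n → ℤ) : Fin q → Fin m → k :=
  fun l i => ∑ j, Φ l j * (e i j : k)

theorem case_full {n q : ℕ} (x : Fin n → K) (Φ : Fin q → Fin n → k)
    (hΔ : ∀ δ ∈ Del x Φ, ∀ j, δ (x j) = 0) (J : Finset (Fin n))
    (hJ : AlgebraicIndependent k (fun i : J => x i)) :
    finrank K (Rel x Φ) + J.card ≤ finrank k (Ker k Φ) := by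
  classical
  refine le_trans ?_ (finrank_Ker_le (K := K) Φ)
  obtain ⟨δ, hδ⟩ := exists_der' (fun i : J => x i) hJ
  let ρ : Ker K Φ →ₗ[K] (J → K) :=
    { toFun := fun g i => ∑ j, (g : Fin n → K) j * (δ i (x j) / x j)
      map_add' := by
        intro v w
        funext i
        simp only [Submodule.coe_add, Pi.add_apply, add_mul, Finset.sum_add_distrib]
      map_smul' := by
        intro c v
        funext i
        simp only [Submodule.coe_smul, Pi.smul_apply, smul_eq_mul, RingHom.id_apply,
          Finset.mul_sum, mul_assoc] }
  have hρ : ∀ g i, ρ g i = ∑ j, (g : Fin n → K) j * (δ i (x j) / x j) := fun _ _ => rfl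
  have hsurj : LinearMap.range ρ = ⊤ := by
    by_contra hne
    obtain ⟨f, hf0, hf⟩ := Submodule.exists_le_ker_of_lt_top (LinearMap.range ρ)
      (lt_top_iff_ne_top.mpr hne)
    have hsum : ∀ v : J → K, f v = ∑ i, f (Pi.single i 1) * v i := by
      intro v
      conv_lhs => rw [pi_eq_sum_univ' v]
      rw [map_sum]
      refine Finset.sum_congr rfl fun l _ => ?_
      rw [map_smul, smul_eq_mul, mul_comm]
    set D : Derivation k K K := ∑ i, f (Pi.single i 1) • δ i with hD
    have hDx : ∀ z, D z = ∑ i, f (Pi.single i 1) * δ i z := by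
      intro z
      rw [hD]
      have h1 : ∀ s : Finset J, (∑ i ∈ s, f (Pi.single i 1) • δ i : Derivation k K K) z =
          ∑ i ∈ s, f (Pi.single i 1) * δ i z := by
        intro s
        induction s using Finset.induction_on with
        | empty => simp
        | insert a s ha ih =>
          rw [Finset.sum_insert ha, Finset.sum_insert ha, Derivation.add_apply,
            Derivation.smul_apply, ih, smul_eq_mul]
      exact h1 _
    have hDel : D ∈ Del x Φ := by
      intro g hg
      have h1 : f (ρ ⟨g, hg⟩) = 0 := hf (LinearMap.mem_range_self ρ _)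
      rw [hsum] at h1
      rw [← h1]
      simp only [hρ, hDx, Finset.mul_sum, Finset.sum_div]
      rw [Finset.sum_comm]
      refine Finset.sum_congr rfl fun i _ => Finset.sum_congr rfl fun j _ => ?_
      ring
    refine hf0 (LinearMap.ext fun v => ?_)
    rw [hsum v, LinearMap.zero_apply]
    refine Finset.sum_eq_zero fun i _ => ?_
    have h2 := hΔ D hDel i
    rw [hDx, Finset.sum_eq_single i] at h2
    · rw [hδ i i, if_pos rfl, mul_one] at h2
      rw [h2, zero_mul]
    · intro l _ hl
      rw [hδ l i, if_neg hl, mul_zero]
    · intro h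
      exact absurd (Finset.mem_univ _) h
  have hrank := LinearMap.finrank_range_add_finrank_ker ρ
  rw [hsurj, finrank_top, Module.finrank_fintype_fun_eq_card, Fintype.card_coe] at hrank
  have hle : finrank K (Rel x Φ) ≤ finrank K (LinearMap.ker ρ) := by
    let ι : Rel x Φ →ₗ[K] LinearMap.ker ρ :=
      { toFun := fun g => ⟨⟨g, g.2.1⟩, by
          rw [LinearMap.mem_ker]
          funext i
          exact g.2.2 (δ i)⟩
        map_add' := fun _ _ => rfl
        map_smul' := fun _ _ => rfl }
    refine LinearMap.finrank_le_finrank_of_injective (f := ι) ?_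
    intro v w h
    have h1 := congrArg (fun u : LinearMap.ker ρ => ((u : Ker K Φ) : Fin n → K)) h
    exact Subtype.ext h1
  omega

/-- The relations come from the constant characters. -/
theorem rel_le {n q m : ℕ} (x : Fin n → K) (hx : ∀ j, x j ≠ 0) (Φ : Fin q → Fin n → k)
    (b : Basis (Fin m) ℤ (CL (Del x Φ) x hx)) :
    finrank K (Rel x Φ) ≤
      finrank K (Rel (fun i => ∏ j, x j ^ ((b i : Fin n → ℤ) j))
        (pull Φ fun i => (b i : Fin n → ℤ))) := by
  classical
  set e : Fin m → Fin n → ℤ := fun i => (b i : Fin n → ℤ) with he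
  set y : Fin m → K := fun i => ∏ j, x j ^ e i j with hy
  let E : (Fin m → K) →ₗ[K] (Fin n → K) :=
    { toFun := fun v j => ∑ i, v i * (e i j : K)
      map_add' := by
        intro v w
        funext j
        simp only [Pi.add_apply, add_mul, Finset.sum_add_distrib]
      map_smul' := by
        intro c v
        funext j
        simp only [Pi.smul_apply, smul_eq_mul, RingHom.id_apply, Finset.mul_sum, mul_assoc] }
  have hE : ∀ v j, E v j = ∑ i, v i * (e i j : K) := fun _ _ => rfl
  have hyld : ∀ (D : Derivation k K K) i, D (y i) / y i = ∑ j, (e i j : K) * (D (x j) / x j) := by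
    intro D i
    exact SpanAux.ld_prod D Finset.univ x hx (e i)
  have hmap : Rel x Φ ≤ Submodule.map E (Rel y (pull Φ e)) := by
    refine (span_const (Del x Φ) (Rel x Φ)
      (fun δ hδ g hg => Rel_stable x hx Φ δ hδ g hg)).trans ?_
    rw [Submodule.span_le]
    rintro c ⟨hc, hcc⟩
    -- the vector over the constants
    set F := cst (Del x Φ) with hF
    let c0 : Fin n → F := fun j => ⟨c j, hcc j⟩
    have : CharZero F := charZero_of_injective_algebraMap (algebraMap k F).injective
    have h1 : c0 ∈ Submodule.span F (Gam F x) := by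
      refine mem_span_of_dlog (k := F) (K := K) ?_ x hx c0 ?_
      · intro z hz
        exact ⟨⟨z, cst_closed _ z hz⟩, rfl⟩
      · intro D
        exact hc.2 (Derivation.restrictScalars k D)
    -- every vector in this span comes from the characters `e`
    have h2 : ∀ v ∈ Submodule.span F (Gam F x), ∃ u : Fin m → F,
        ∀ j, v j = ∑ i, u i * (e i j : F) := by
      intro v hv
      induction hv using Submodule.span_induction with
      | mem v hv =>
        obtain ⟨a, ha, haF⟩ := hv
        have h3 : a ∈ CL (Del x Φ) x hx := by
          obtain ⟨z, hz⟩ := haF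
          rw [mem_CL, ← hz]
          exact z.2
        refine ⟨fun i => ((b.repr ⟨a, h3⟩ i : ℤ) : F), fun j => ?_⟩
        rw [ha j]
        have h4 := b.sum_repr ⟨a, h3⟩
        have h5 : a j = ∑ i, b.repr ⟨a, h3⟩ i * e i j := by
          have h6 := congrArg (fun u : CL (Del x Φ) x hx => (u : Fin n → ℤ) j) h4
          simp only [AddSubmonoidClass.coe_finsetSum, Finset.sum_apply] at h6
          rw [← h6]
          rfl
        rw [h5]
        push_cast
        rfl
      | zero => exact ⟨0, fun j => by simp⟩
      | add v w _ _ hv hw =>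
        obtain ⟨u, hu⟩ := hv
        obtain ⟨u', hu'⟩ := hw
        refine ⟨u + u', fun j => ?_⟩
        simp only [Pi.add_apply, add_mul, Finset.sum_add_distrib]
        rw [hu j, hu' j]
      | smul r v _ hv =>
        obtain ⟨u, hu⟩ := hv
        refine ⟨r • u, fun j => ?_⟩
        simp only [Pi.smul_apply, smul_eq_mul]
        rw [hu j, Finset.mul_sum]
        exact Finset.sum_congr rfl fun i _ => by ring
    obtain ⟨u, hu⟩ := h2 c0 h1
    have hcu : ∀ j, c j = ∑ i, (u i : K) * (e i j : K) := by
      intro j
      have h3 := congrArg (fun z : F => (z : K)) (hu j)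
      simp only [AddSubmonoidClass.coe_finsetSum, MulMemClass.coe_mul] at h3
      rw [show c j = ((c0 j : F) : K) from rfl, h3]
      refine Finset.sum_congr rfl fun i _ => ?_
      norm_cast
    refine ⟨fun i => (u i : K), ⟨?_, ?_⟩, ?_⟩
    · intro l
      have h3 := hc.1 l
      rw [← h3]
      simp only [pull, hcu, map_sum, map_mul, map_intCast, Finset.sum_mul, Finset.mul_sum]
      rw [Finset.sum_comm]
      refine Finset.sum_congr rfl fun j _ => Finset.sum_congr rfl fun i _ => ?_
      ring
    · intro D
      have h3 := hc.2 D
      rw [← h3]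
      simp only [hyld, hcu, Finset.sum_mul, Finset.mul_sum]
      rw [Finset.sum_comm]
      refine Finset.sum_congr rfl fun j _ => Finset.sum_congr rfl fun i _ => ?_
      ring
    · funext j
      rw [hE, hcu]
  refine (Submodule.finrank_mono hmap).trans ?_
  exact Submodule.finrank_map_le E _

/-- LINEAR AX THEOREM. -/
theorem lin_ax (n : ℕ) : ∀ (x : Fin n → K), (∀ j, x j ≠ 0) → ∀ (q : ℕ) (Φ : Fin q → Fin n → k),
    ∃ (m : ℕ) (e : Fin m → Fin n → ℤ), LinearIndependent ℤ e ∧ Full k x e ∧
      ∀ J : Finset (Fin m), AlgebraicIndependent k (fun i : J => ∏ j, x j ^ e i j) →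
        finrank K (Rel x Φ) + J.card ≤ finrank k (Ker k (pull Φ e)) := by
  classical
  induction n using Nat.strong_induction_on with
  | _ n ih =>
    intro x hx q Φ
    by_cases hΔ : ∀ δ ∈ Del x Φ, ∀ j, δ (x j) = 0
    · have hb : (fun i => Pi.single i 1 : Fin n → Fin n → ℤ) = ⇑(Pi.basisFun ℤ (Fin n)) := by
        funext i
        rw [Pi.basisFun_apply]
      have hprod : ∀ i, ∏ j, x j ^ (Pi.single i 1 : Fin n → ℤ) j = x i := by
        intro i
        rw [Finset.prod_eq_single i]
        · rw [Pi.single_eq_same, zpow_one]
        · intro j _ hj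
          rw [Pi.single_eq_of_ne hj, zpow_zero]
        · intro h
          exact absurd (Finset.mem_univ _) h
      refine ⟨n, fun i => Pi.single i 1, ?_, ?_, ?_⟩
      · rw [hb]
        exact (Pi.basisFun ℤ (Fin n)).linearIndependent
      · intro a _
        rw [hb, (Pi.basisFun ℤ (Fin n)).span_eq]
        exact Submodule.mem_top
      · intro J hJ
        have hJ' : AlgebraicIndependent k (fun i : J => x i) := by
          have h1 : (fun i : J => ∏ j, x j ^ (Pi.single (i : Fin n) 1 : Fin n → ℤ) j) =
              fun i : J => x i := funext fun i => hprod i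
          rwa [h1] at hJ
        have h2 : pull Φ (fun i => Pi.single i 1 : Fin n → Fin n → ℤ) = Φ := by
          funext l i
          simp only [pull]
          rw [Finset.sum_eq_single i]
          · rw [Pi.single_eq_same, Int.cast_one, mul_one]
          · intro j _ hj
            rw [Pi.single_eq_of_ne hj, Int.cast_zero, mul_zero]
          · intro h
            exact absurd (Finset.mem_univ _) h
        rw [h2]
        exact case_full x Φ hΔ J hJ'
    · push Not at hΔ
      obtain ⟨δ₀, hδ₀, j₀, hj₀⟩ := hΔ
      have hj : x j₀ ∉ cst (Del x Φ) := fun h => hj₀ (h δ₀ hδ₀)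
      obtain ⟨m, ⟨b⟩⟩ := Submodule.nonempty_basis_of_pid (Pi.basisFun ℤ (Fin n))
        (CL (Del x Φ) x hx)
      have hm := CL_rank_lt (Del x Φ) x hx j₀ hj b
      set e : Fin m → Fin n → ℤ := fun i => (b i : Fin n → ℤ) with he
      set y : Fin m → K := fun i => ∏ j, x j ^ e i j with hy
      have hy0 : ∀ i, y i ≠ 0 := fun i => Finset.prod_ne_zero_iff.mpr fun j _ =>
        zpow_ne_zero _ (hx j)
      obtain ⟨m', e', hli, hfull, hJ⟩ := ih m hm y hy0 q (pull Φ e)
      have hle := rel_le x hx Φ b
      have hprod : ∀ c : Fin m → ℤ, ∏ j, x j ^ (∑ l, c l * e l j) = ∏ l, y l ^ c l :=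
        fun c => prod_zpow_sum x hx e c
      have hye : (fun i => ∏ j, x j ^ (∑ l, e' i l * e l j)) = fun i => ∏ l, y l ^ e' i l :=
        funext fun i => hprod (e' i)
      let E : (Fin m → ℤ) →ₗ[ℤ] (Fin n → ℤ) := Fintype.linearCombination ℤ e
      have hE : ∀ v j, E v j = ∑ l, v l * e l j := by
        intro v j
        rw [Fintype.linearCombination_apply, Finset.sum_apply]
        rfl
      have heli : LinearIndependent ℤ e :=
        b.linearIndependent.map' (CL (Del x Φ) x hx).subtype (Submodule.ker_subtype _)
      have hEinj : Function.Injective E := by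
        rw [← LinearMap.ker_eq_bot, LinearMap.ker_eq_bot']
        intro v hv
        rw [Fintype.linearCombination_apply] at hv
        exact funext fun i => (Fintype.linearIndependent_iff.mp heli) v hv i
      refine ⟨m', fun i j => ∑ l, e' i l * e l j, ?_, ?_, ?_⟩
      · have h1 : (fun i j => ∑ l, e' i l * e l j) = fun i => E (e' i) := by
          funext i j
          rw [hE]
        rw [h1]
        exact hli.map' E (LinearMap.ker_eq_bot.mpr hEinj)
      · intro a ha
        rw [hye] at ha
        -- the monomial is constant
        have h1 : a ∈ CL (Del x Φ) x hx := by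
          rw [mem_CL]
          refine cst_closed _ _ ?_
          have h2 : IntermediateField.adjoin k (Set.range fun i => ∏ l, y l ^ e' i l) ≤
              cst (Del x Φ) := by
            rw [IntermediateField.adjoin_le_iff]
            rintro _ ⟨i, rfl⟩
            exact prod_mem fun l _ => zpow_mem (mem_CL.mp (b l).2) _
          exact IsAlgebraic.ringHom_of_comp_eq
            ((IntermediateField.inclusion h2 : _ →ₐ[k] _) : _ →+* _) (RingHom.id K) ha
            (IntermediateField.inclusion h2).injective rfl
        -- it is a monomial in the constant monomials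
        have h3 := b.sum_repr ⟨a, h1⟩
        have h4 : a = E (fun l => b.repr ⟨a, h1⟩ l) := by
          funext j
          have h6 := congrArg (fun u : CL (Del x Φ) x hx => (u : Fin n → ℤ) j) h3
          simp only [AddSubmonoidClass.coe_finsetSum, Finset.sum_apply] at h6
          rw [hE, ← h6]
          rfl
        have h5 : (fun l => b.repr ⟨a, h1⟩ l) ∈ Submodule.span ℤ (Set.range e') := by
          refine hfull _ ?_
          have h7 : ∏ j, x j ^ a j = ∏ l, y l ^ (b.repr ⟨a, h1⟩ l) := by
            rw [← hprod]
            refine Finset.prod_congr rfl fun j _ => ?_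
            rw [← hE, ← h4]
          rw [← h7]
          exact ha
        rw [h4]
        have h8 : Submodule.span ℤ (Set.range fun i j => ∑ l, e' i l * e l j) =
            Submodule.map E (Submodule.span ℤ (Set.range e')) := by
          rw [Submodule.map_span, ← Set.range_comp]
          congr 1
          congr 1
          funext i
          funext j
          rw [Function.comp_apply, hE]
        rw [h8]
        exact Submodule.mem_map_of_mem h5
      · intro J hJ'
        have hJ2 : AlgebraicIndependent k (fun i : J => ∏ l, y l ^ e' i l) := by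
          have h1 : (fun i : J => ∏ j, x j ^ (∑ l, e' i l * e l j)) =
              fun i : J => ∏ l, y l ^ e' i l := funext fun i => hprod (e' i)
          rw [← h1]
          exact hJ'
        have h2 := hJ J hJ2
        have h3 : pull (pull Φ e) e' = pull Φ (fun i j => ∑ l, e' i l * e l j) := by
          funext l i
          simp only [pull, Int.cast_sum, Int.cast_mul, Finset.sum_mul, Finset.mul_sum]
          rw [Finset.sum_comm]
          refine Finset.sum_congr rfl fun j _ => Finset.sum_congr rfl fun u _ => ?_
          ring
        rw [h3] at h2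
        exact le_trans (Nat.add_le_add_right hle _) h2

end

end Pool.Agent.LinAx
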